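import Pool.Agent.H609R3.ToricFiber

/-!
# Gröbner degree of toric homogeneous Markov chains without self-loops

For every field `k`, every `S ≥ 6`, every even `T ≥ 4` and every monomial order, every Gröbner
basis of the toric ideal `I_A` contains a polynomial of total degree at least `3 (T - 1)`.
-/

namespace Pool.Agent.Results.MP_c5e1a2_co.GroebnerDegreeUnbounded

open Pool.Agent.H609R3 Finset MvPolynomial

/-- The ring map `p_w ↦ ∏_{i ≠ j} θ_{ij} ^ (number of transitions i → j in w)`. -/
noncomputable def toricMap (k : Type*) [Field k] (S T : ℕ) :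
    MvPolynomial (Word S T) k →ₐ[k] MvPolynomial {e : Fin S × Fin S // e.1 ≠ e.2} k :=
  aeval (fun w => ∏ e : {e : Fin S × Fin S // e.1 ≠ e.2}, X e ^ transCount w e.1)

/-- The toric ideal of the model: the kernel of `toricMap`. -/
noncomputable def toricIdeal (k : Type*) [Field k] (S T : ℕ) :
    Ideal (MvPolynomial (Word S T) k) :=
  RingHom.ker (toricMap k S T)

/-- `G` is a Gröbner basis of the ideal `I` for the monomial order `m`: `G` is contained in
`I`, and the leading monomial of every nonzero element of `I` is divisible by the leading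
monomial of some nonzero element of `G`. -/
def IsGroebnerBasis {σ k : Type*} [Field k] (m : MonomialOrder σ)
    (I : Ideal (MvPolynomial σ k)) (G : Set (MvPolynomial σ k)) : Prop :=
  (∀ g ∈ G, g ∈ I) ∧ ∀ h ∈ I, h ≠ 0 → ∃ g ∈ G, g ≠ 0 ∧ m.degree g ≤ m.degree h

variable {k : Type*} [Field k] {S T : ℕ}

/-- exponent vector of the image of the variable `p_w` -/
noncomputable def ex (w : Word S T) : {e : Fin S × Fin S // e.1 ≠ e.2} →₀ ℕ :=
  Finsupp.equivFunOnFinite.symm (fun e => transCount w e.1)

/-- exponent vector of the image of a monomial -/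
noncomputable def exv (a : Word S T →₀ ℕ) : {e : Fin S × Fin S // e.1 ≠ e.2} →₀ ℕ :=
  a.sum (fun w n => n • ex w)

lemma prod_eq (w : Word S T) :
    (∏ e : {e : Fin S × Fin S // e.1 ≠ e.2}, X e ^ transCount w e.1 :
      MvPolynomial {e : Fin S × Fin S // e.1 ≠ e.2} k) = monomial (ex w) 1 := by
  rw [monomial_eq, Finsupp.prod_fintype _ _ (by simp)]
  simp [ex]

lemma toricMap_monomial (a : Word S T →₀ ℕ) (r : k) :
    toricMap k S T (monomial a r) = monomial (exv a) r := by
  unfold toricMap
  rw [aeval_monomial]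
  simp only [prod_eq]
  have h : (a.prod fun w n => (monomial (ex w) (1 : k)) ^ n) = monomial (exv a) 1 := by
    unfold exv
    rw [Finsupp.prod, Finsupp.sum, monomial_sum_one]
    refine Finset.prod_congr rfl (fun w _ => ?_)
    rw [monomial_pow, one_pow]
  rw [h]
  simp [algebraMap_eq, C_mul_monomial]

lemma exv_apply (a : Word S T →₀ ℕ) (e : {e : Fin S × Fin S // e.1 ≠ e.2}) :
    exv a e = ∑ w, a w * transCount w e.1 := by
  unfold exv
  rw [Finsupp.sum_fintype _ _ (by simp), Finsupp.finsetSum_apply]
  refine Finset.sum_congr rfl (fun w _ => ?_)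
  simp [ex]

lemma sameCounts_of_exv {a b : Word S T →₀ ℕ} (h : exv a = exv b) :
    SameCounts (⇑a) (⇑b) := by
  intro e he
  have := DFunLike.congr_fun h ⟨e, he⟩
  rwa [exv_apply, exv_apply] at this

lemma exv_of_sameCounts {a b : Word S T →₀ ℕ} (h : SameCounts (⇑a) (⇑b)) :
    exv a = exv b := by
  ext e
  rw [exv_apply, exv_apply]
  exact h e.1 e.2

lemma exv_add (a b : Word S T →₀ ℕ) : exv (a + b) = exv a + exv b := by
  ext e
  rw [Finsupp.add_apply, exv_apply, exv_apply, exv_apply, ← Finset.sum_add_distrib]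
  refine Finset.sum_congr rfl (fun w _ => ?_)
  rw [Finsupp.add_apply, add_mul]

/-- In a kernel element, every monomial of the support has a partner in its fibre. -/
lemma partner {h : MvPolynomial (Word S T) k} (hh : h ∈ toricIdeal k S T)
    {a : Word S T →₀ ℕ} (ha : coeff a h ≠ 0) : ∃ a', a' ≠ a ∧ exv a' = exv a := by
  classical
  by_contra hcon
  push Not at hcon
  have h0 : toricMap k S T h = 0 := hh
  rw [h.as_sum, map_sum] at h0
  simp only [toricMap_monomial] at h0
  have h1 := congrArg (coeff (exv a)) h0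
  rw [coeff_sum, coeff_zero] at h1
  rw [Finset.sum_eq_single a] at h1
  · rw [coeff_monomial, if_pos rfl] at h1
    exact ha h1
  · intro b _ hb
    rw [coeff_monomial, if_neg]
    exact hcon b hb
  · intro hb
    rw [coeff_monomial, if_pos rfl]
    exact notMem_support_iff.1 hb

theorem result (k : Type*) [Field k] (S T : ℕ) (hS : 6 ≤ S) (hT : 4 ≤ T) (hE : Even T)
    (m : MonomialOrder (Word S T)) (G : Set (MvPolynomial (Word S T) k))
    (hG : IsGroebnerBasis m (toricIdeal k S T) G) :
    ∃ g ∈ G, 3 * (T - 1) ≤ g.totalDegree := by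
  classical
  obtain ⟨K, rfl⟩ : ∃ K, T = 2 * K + 4 := by
    obtain ⟨r, hr⟩ := hE
    exact ⟨r - 2, by omega⟩
  set u : Word S (2 * K + 4) →₀ ℕ :=
    Finsupp.equivFunOnFinite.symm (lift hS (2 * K + 4) (U K)) with hu
  set v : Word S (2 * K + 4) →₀ ℕ :=
    Finsupp.equivFunOnFinite.symm (lift hS (2 * K + 4) (V K)) with hv
  have hue : ∀ w, u w = lift hS (2 * K + 4) (U K) w := fun w => rfl
  have hve : ∀ w, v w = lift hS (2 * K + 4) (V K) w := fun w => rfl
  have huv : exv u = exv v := exv_of_sameCounts (fun e _ => counts_eq hS K e)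
  have hfib : ∀ a, exv a = exv u → a = u ∨ a = v := by
    intro a ha
    rcases fibre_two hS K (⇑a) (sameCounts_of_exv ha) with h | h
    · left; ext w; rw [h]; rfl
    · right; ext w; rw [h]; rfl
  have hdisj : ∀ w, u w = 0 ∨ v w = 0 := fun w => lift_disj hS K w
  have hsumU : ∑ w, u w = 3 * (2 * K + 3) := by
    simp only [hue]
    rw [sum_lift' hS hT, sum_U]
  have hsumV : ∑ w, v w = 3 * (2 * K + 3) := by
    simp only [hve]
    rw [sum_lift' hS hT, sum_V]
  have hne : u ≠ v := by
    intro h
    have hz : ∀ w, u w = 0 := by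
      intro w
      rcases hdisj w with h' | h'
      · exact h'
      · rw [h]; exact h'
    have : ∑ w, u w = 0 := Finset.sum_eq_zero (fun w _ => hz w)
    omega
  -- the binomial
  set F : MvPolynomial (Word S (2 * K + 4)) k := monomial u 1 - monomial v 1 with hF
  have hFI : F ∈ toricIdeal k S (2 * K + 4) := by
    change toricMap k S (2 * K + 4) F = 0
    rw [hF, map_sub, toricMap_monomial, toricMap_monomial, huv, sub_self]
  have hFu : coeff u F = 1 := by
    rw [hF, coeff_sub, coeff_monomial, coeff_monomial, if_pos rfl, if_neg hne.symm, sub_zero]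
  have hF0 : F ≠ 0 := by
    intro h
    rw [h, coeff_zero] at hFu
    exact zero_ne_one hFu
  obtain ⟨g, hgG, hg0, hgle⟩ := hG.2 F hFI hF0
  refine ⟨g, hgG, ?_⟩
  have hd : m.degree F = u ∨ m.degree F = v := by
    have h1 : coeff (m.degree F) F ≠ 0 := by
      rw [m.coeff_degree_ne_zero_iff]; exact hF0
    by_contra hcon
    push Not at hcon
    apply h1
    rw [hF, coeff_sub, coeff_monomial, coeff_monomial, if_neg (Ne.symm hcon.1),
      if_neg (Ne.symm hcon.2), sub_zero]
  have hgc : coeff (m.degree g) g ≠ 0 := by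
    rw [m.coeff_degree_ne_zero_iff]; exact hg0
  obtain ⟨a', ha', hexv⟩ := partner (hG.1 g hgG) hgc
  -- the leading monomial of `g` is the whole leading monomial of `F`
  have key : m.degree g = m.degree F := by
    set r : Word S (2 * K + 4) →₀ ℕ := m.degree F - m.degree g with hr
    have hsum : m.degree g + r = m.degree F := add_tsub_cancel_of_le hgle
    have hdu : exv (m.degree F) = exv u := by
      rcases hd with h | h
      · rw [h]
      · rw [h, huv]
    have h2 : exv (a' + r) = exv u := by
      rw [exv_add, hexv, ← exv_add, hsum, hdu]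
    have hr0 : r = 0 := by
      ext w
      have h3 : a' + r ≠ m.degree F := by
        intro h
        rw [← hsum] at h
        exact ha' (add_right_cancel h)
      have h4 : (a' + r = u ∧ m.degree F = v) ∨ (a' + r = v ∧ m.degree F = u) := by
        rcases hfib _ h2 with h5 | h5 <;> rcases hd with h6 | h6
        · exact absurd (h5.trans h6.symm) h3
        · exact Or.inl ⟨h5, h6⟩
        · exact Or.inr ⟨h5, h6⟩
        · exact absurd (h5.trans h6.symm) h3
      have h7 : r w ≤ (a' + r) w := by rw [Finsupp.add_apply]; omega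
      have h8 : r w ≤ (m.degree F) w := by rw [← hsum, Finsupp.add_apply]; omega
      have h9 := hdisj w
      rw [Finsupp.coe_zero, Pi.zero_apply]
      rcases h4 with ⟨h5, h6⟩ | ⟨h5, h6⟩
      · rw [h5] at h7; rw [h6] at h8; omega
      · rw [h5] at h7; rw [h6] at h8; omega
    rw [← hsum, hr0, add_zero]
  have hdeg : (m.degree F).sum (fun _ n => n) = 3 * (2 * K + 3) := by
    rw [Finsupp.sum_fintype _ _ (by simp)]
    rcases hd with h | h
    · rw [h]; exact hsumU
    · rw [h]; exact hsumV
  have h10 := le_totalDegree (mem_support_iff.2 hgc)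
  rw [key, hdeg] at h10
  omega

end Pool.Agent.Results.MP_c5e1a2_co.GroebnerDegreeUnbounded
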