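import Pool.Agent.H609R3.ToricFiber

/-!
# Markov degree of toric homogeneous Markov chains without self-loops

For every `S ≥ 6` and every even `T ≥ 4`, every Markov basis of the model contains a move of
degree at least `3 (T - 1)`.  In particular the Markov degree is not bounded by any function of
`S`; already for `S = 6`, `T = 4` it is at least `9 > S - 1`.
-/

namespace Pool.Agent.Results.MP_c5e1a2_co.MarkovDegreeUnbounded

open Pool.Agent.H609R3 Finset

theorem result (S T : ℕ) (hS : 6 ≤ S) (hT : 4 ≤ T) (hE : Even T)
    (B : Set (Word S T → ℤ)) (hB : IsMarkovBasis S T B) :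
    ∃ z ∈ B, 3 * (T - 1) ≤ moveDegree z := by
  obtain ⟨K, rfl⟩ : ∃ K, T = 2 * K + 4 := by
    obtain ⟨r, hr⟩ := hE
    exact ⟨r - 2, by omega⟩
  by_contra hcon
  push Not at hcon
  set u := lift hS (2 * K + 4) (U K) with hu
  set v := lift hS (2 * K + 4) (V K) with hv
  have hsame : SameCounts u v := fun e _ => counts_eq hS K e
  obtain ⟨n, p, hp0, hpn, hstep⟩ := hB.2 u v hsame
  have hdisj : ∀ w, u w = 0 ∨ v w = 0 := fun w => lift_disj hS K w
  have hsumU : ∑ w, u w = 3 * (2 * K + 3) := by
    rw [hu, sum_lift' hS hT, sum_U]
  have hsumV : ∑ w, v w = 3 * (2 * K + 3) := by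
    rw [hv, sum_lift' hS hT, sum_V]
  have hall : ∀ l ≤ n, p l = u := by
    intro l
    induction l with
    | zero => intro _; exact hp0
    | succ l ih =>
      intro hl
      have h1 : p l = u := ih (by omega)
      obtain ⟨z, hz, hstep'⟩ := hstep l (by omega)
      have hmove := hB.1 z hz
      have hsame' : SameCounts (p (l + 1)) u := by
        intro e he
        have h2 := hmove e he
        have h3 : ((∑ w, p (l + 1) w * transCount w e : ℕ) : ℤ) =
            ((∑ w, u w * transCount w e : ℕ) : ℤ) := by
          push_cast
          rcases hstep' with h4 | h4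
          · calc ∑ w, (p (l + 1) w : ℤ) * (transCount w e : ℤ)
                = ∑ w, ((u w : ℤ) * (transCount w e : ℤ) + z w * (transCount w e : ℤ)) := by
                  refine Finset.sum_congr rfl (fun w _ => ?_)
                  rw [h4 w, h1]; ring
              _ = ∑ w, (u w : ℤ) * (transCount w e : ℤ) := by
                  rw [Finset.sum_add_distrib, h2, add_zero]
          · calc ∑ w, (p (l + 1) w : ℤ) * (transCount w e : ℤ)
                = ∑ w, ((u w : ℤ) * (transCount w e : ℤ) - z w * (transCount w e : ℤ)) := by
                  refine Finset.sum_congr rfl (fun w _ => ?_)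
                  rw [h4 w, h1]; ring
              _ = ∑ w, (u w : ℤ) * (transCount w e : ℤ) := by
                  rw [Finset.sum_sub_distrib, h2, sub_zero]
        exact_mod_cast h3
      rcases fibre_two hS K (p (l + 1)) hsame' with h5 | h5
      · exact h5
      · exfalso
        have hdeg := hcon z hz
        have hval : ∀ w, (p (l + 1) w : ℤ) = v w := fun w => by rw [h5]
        rcases hstep' with h4 | h4
        · have h6 : ∀ w, (z w).toNat = v w := by
            intro w
            have h7 := h4 w
            rw [hval w, h1] at h7
            rcases hdisj w with h8 | h8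
            · rw [h8] at h7; omega
            · rw [h8] at h7; omega
          have h9 : moveDegree z = 3 * (2 * K + 3) := by
            unfold moveDegree
            rw [← hsumV]
            exact Finset.sum_congr rfl (fun w _ => h6 w)
          omega
        · have h6 : ∀ w, (z w).toNat = u w := by
            intro w
            have h7 := h4 w
            rw [hval w, h1] at h7
            rcases hdisj w with h8 | h8
            · rw [h8] at h7; omega
            · rw [h8] at h7; omega
          have h9 : moveDegree z = 3 * (2 * K + 3) := by
            unfold moveDegree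
            rw [← hsumU]
            exact Finset.sum_congr rfl (fun w _ => h6 w)
          omega
  have huv : u = v := by rw [← hall n le_rfl, hpn]
  have hz : ∀ w, u w = 0 := by
    intro w
    rcases hdisj w with h | h
    · exact h
    · rw [huv]; exact h
  have : ∑ w, u w = 0 := Finset.sum_eq_zero (fun w _ => hz w)
  omega

end Pool.Agent.Results.MP_c5e1a2_co.MarkovDegreeUnbounded
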